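import Pool.Agent.SOR.Stmts2

/-!
# Squad SOR, row AVE: averages over the orbits of two commuting permutations
-/

open scoped BigOperators

noncomputable section

namespace Pool.Agent.SOR.H16

theorem cyc (u : ℕ → ℚ) (m : ℕ) (h : u m = u 0) :
    ∑ k ∈ Finset.range m, u (k + 1) = ∑ k ∈ Finset.range m, u k := by
  have h1 := Finset.sum_range_succ u m
  have h2 := Finset.sum_range_succ' u m
  linarith

theorem per (u : ℕ → ℚ) (l : ℕ) (h : ∀ j, u (l + j) = u j) (n : ℕ) :
    ∑ j ∈ Finset.range (n * l), u j = n * ∑ j ∈ Finset.range l, u j := by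
  induction n with
  | zero => simp
  | succ n ih =>
    have e : (n + 1) * l = l + n * l := by ring
    rw [e, Finset.sum_range_add]
    have : ∑ x ∈ Finset.range (n * l), u (l + x) = ∑ x ∈ Finset.range (n * l), u x :=
      Finset.sum_congr rfl fun x _ => h x
    rw [this, ih]
    push_cast
    ring

theorem inv_pow {Y : Type} (s : Equiv.Perm Y) (f : Y → ℚ) (h : ∀ y, f (s y) = f y) (k : ℕ)
    (y : Y) : f ((s ^ k) y) = f y := by
  induction k generalizing y with
  | zero => simp
  | succ k ih =>
    rw [pow_succ, Equiv.Perm.mul_apply, ih, h]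

theorem inv_zpow {Y : Type} (s : Equiv.Perm Y) (f : Y → ℚ) (h : ∀ y, f (s y) = f y) (k : ℤ)
    (y : Y) : f ((s ^ k) y) = f y := by
  have hi : ∀ y, f (s⁻¹ y) = f y := by
    intro y
    have h1 := h (s⁻¹ y)
    have h2 : s (s⁻¹ y) = y := by
      rw [← Equiv.Perm.mul_apply, mul_inv_cancel, Equiv.Perm.one_apply]
    rw [h2] at h1
    exact h1.symm
  obtain ⟨n, rfl | rfl⟩ := k.eq_nat_or_neg
  · rw [zpow_natCast]
    exact inv_pow s f h n y
  · have e : s ^ (-(n : ℤ)) = s⁻¹ ^ n := by
      rw [zpow_neg, zpow_natCast, _root_.inv_pow]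
    rw [e]
    exact inv_pow s⁻¹ f hi n y

theorem ave : AveStmt := by
  intro Y _ s t hst
  have hc : Commute s t := hst
  have hm : 0 < orderOf s := orderOf_pos s
  have hn : 0 < orderOf t := orderOf_pos t
  have hmq : (orderOf s : ℚ) ≠ 0 := by exact_mod_cast hm.ne'
  have hnq : (orderOf t : ℚ) ≠ 0 := by exact_mod_cast hn.ne'
  have hs : ∀ (f : Y → ℚ) y, av s t f (s y) = av s t f y := by
    intro f y
    unfold av
    congr 1
    have e : ∀ k l : ℕ, (s ^ k * t ^ l) (s y) = (s ^ (k + 1) * t ^ l) y := by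
      intro k l
      rw [← Equiv.Perm.mul_apply, mul_assoc, ((hc.pow_right l).eq).symm, ← mul_assoc, ← pow_succ]
    simp only [e]
    refine cyc (fun k => ∑ l ∈ Finset.range (orderOf t), f ((s ^ k * t ^ l) y)) _ ?_
    simp only [pow_orderOf_eq_one, pow_zero]
  have ht : ∀ (f : Y → ℚ) y, av s t f (t y) = av s t f y := by
    intro f y
    unfold av
    congr 1
    refine Finset.sum_congr rfl fun k _ => ?_
    have e : ∀ l : ℕ, (s ^ k * t ^ l) (t y) = (s ^ k * t ^ (l + 1)) y := by
      intro l
      rw [← Equiv.Perm.mul_apply, mul_assoc, ← pow_succ]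
    simp only [e]
    refine cyc (fun l => f ((s ^ k * t ^ l) y)) _ ?_
    simp only [pow_orderOf_eq_one, pow_zero]
  have hfs : ∀ f : Y → ℚ, (∀ y, f (s y) = f y) → ∀ y,
      av s t f y = (∑ l ∈ Finset.range (orderOf t), f ((t ^ l) y)) / orderOf t := by
    intro f hf y
    unfold av
    have e : ∀ k l : ℕ, f ((s ^ k * t ^ l) y) = f ((t ^ l) y) := by
      intro k l
      rw [Equiv.Perm.mul_apply]
      exact inv_pow s f hf k _
    simp only [e, Finset.sum_const, Finset.card_range, nsmul_eq_mul]
    field_simp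
  have hgt : ∀ f : Y → ℚ, (∀ y, f (t y) = f y) → ∀ y,
      av s t f y = (∑ k ∈ Finset.range (orderOf s), f ((s ^ k) y)) / orderOf s := by
    intro f hf y
    unfold av
    have e : ∀ k l : ℕ, f ((s ^ k * t ^ l) y) = f ((s ^ k) y) := by
      intro k l
      rw [(hc.pow_pow k l).eq, Equiv.Perm.mul_apply]
      exact inv_pow t f hf l _
    simp only [e, Finset.sum_const, Finset.card_range, nsmul_eq_mul, ← Finset.mul_sum]
    field_simp
  refine ⟨fun f y => ⟨hs f y, ht f y⟩, ?_, ?_, ?_, ?_, ?_, ?_⟩
  · intro f hf1 hf2 y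
    rw [hfs f hf1 y]
    have e : ∀ l : ℕ, f ((t ^ l) y) = f y := fun l => inv_pow t f hf2 l y
    simp only [e, Finset.sum_const, Finset.card_range, nsmul_eq_mul]
    field_simp
  · intro f g hf hg
    have h1 : ∀ k l : ℕ, ∑ y, f ((t ^ l) y) * g ((s ^ k) y) = ∑ y, f y * g y := by
      intro k l
      rw [← Equiv.sum_comp (s ^ k * t ^ l) (fun y => f y * g y)]
      refine Finset.sum_congr rfl fun y _ => ?_
      congr 1
      · rw [Equiv.Perm.mul_apply]
        exact (inv_pow s f hf k _).symm
      · rw [(hc.pow_pow k l).eq, Equiv.Perm.mul_apply]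
        exact (inv_pow t g hg l _).symm
    have h2 : ∑ y, av s t f y * av s t g y =
        (∑ y, (∑ l ∈ Finset.range (orderOf t), f ((t ^ l) y)) *
          (∑ k ∈ Finset.range (orderOf s), g ((s ^ k) y))) / ((orderOf t : ℚ) * orderOf s) := by
      rw [Finset.sum_div]
      refine Finset.sum_congr rfl fun y _ => ?_
      rw [hfs f hf y, hgt g hg y]
      field_simp
    have h3 : ∑ y, (∑ l ∈ Finset.range (orderOf t), f ((t ^ l) y)) *
          (∑ k ∈ Finset.range (orderOf s), g ((s ^ k) y)) =
        ((orderOf t : ℚ) * orderOf s) * ∑ y, f y * g y := by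
      simp only [Finset.sum_mul_sum]
      rw [Finset.sum_comm]
      have : ∀ l ∈ Finset.range (orderOf t), ∑ y, ∑ k ∈ Finset.range (orderOf s),
          f ((t ^ l) y) * g ((s ^ k) y) = (orderOf s : ℚ) * ∑ y, f y * g y := by
        intro l _
        rw [Finset.sum_comm]
        simp only [h1, Finset.sum_const, Finset.card_range, nsmul_eq_mul]
      rw [Finset.sum_congr rfl this]
      simp only [Finset.sum_const, Finset.card_range, nsmul_eq_mul]
      ring
    rw [h2, h3]
    field_simp
  · intro f hf y k l hkl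
    rw [hfs f hf y]
    have e0 : (t ^ l) y = (s ^ (-k)) y := by
      have : (s ^ (-k)) ((s ^ k * t ^ l) y) = (s ^ (-k)) y := by rw [hkl]
      rw [← this, ← Equiv.Perm.mul_apply, ← mul_assoc, ← zpow_add]
      simp
    have p1 : ∀ j, f ((t ^ (l + j)) y) = f ((t ^ j) y) := by
      intro j
      have hj : (t ^ j * s ^ (-k)) = s ^ (-k) * t ^ j :=
        ((hc.zpow_left (-k)).pow_right j).eq.symm
      rw [add_comm, pow_add, Equiv.Perm.mul_apply, e0, ← Equiv.Perm.mul_apply, hj,
        Equiv.Perm.mul_apply]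
      exact inv_zpow s f hf (-k) _
    have p2 : ∀ j, f ((t ^ (orderOf t + j)) y) = f ((t ^ j) y) := by
      intro j
      rw [pow_add, pow_orderOf_eq_one, one_mul]
    have q1 := per (fun j => f ((t ^ j) y)) l p1 (orderOf t)
    have q2 := per (fun j => f ((t ^ j) y)) (orderOf t) p2 l
    rw [mul_comm l] at q2
    have q3 : (orderOf t : ℚ) * ∑ j ∈ Finset.range l, f ((t ^ j) y) =
        l * ∑ j ∈ Finset.range (orderOf t), f ((t ^ j) y) := by
      rw [← q1, ← q2]
    field_simp
    linarith
  · intro f g y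
    unfold av
    simp only [Finset.sum_add_distrib, add_div]
  · intro f y
    unfold av
    simp only [Finset.sum_neg_distrib, neg_div]
  · intro f y
    constructor
    · rw [← hs f y]
      unfold av
      congr 1
      refine Finset.sum_congr rfl fun k _ => Finset.sum_congr rfl fun l _ => ?_
      have : s ((s ^ k * t ^ l) y) = (s ^ k * t ^ l) (s y) := by
        rw [← Equiv.Perm.mul_apply, ← Equiv.Perm.mul_apply]
        congr 1
        exact ((Commute.refl s).pow_right k |>.mul_right (hc.pow_right l)).eq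
      show f (s ((s ^ k * t ^ l) y)) = _
      rw [this]
    · rw [← ht f y]
      unfold av
      congr 1
      refine Finset.sum_congr rfl fun k _ => Finset.sum_congr rfl fun l _ => ?_
      have : t ((s ^ k * t ^ l) y) = (s ^ k * t ^ l) (t y) := by
        rw [← Equiv.Perm.mul_apply, ← Equiv.Perm.mul_apply]
        congr 1
        exact ((hc.symm.pow_right k).mul_right ((Commute.refl t).pow_right l)).eq
      show f (t ((s ^ k * t ^ l) y)) = _
      rw [this]

end Pool.Agent.SOR.H16
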